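import Mathlib

set_option autoImplicit false
set_option linter.unusedSectionVars false
open Finset Equiv Polynomial

namespace Pool.Agent.H.MP_73edb1_nt

variable {p : ℕ} [hp : Fact p.Prime]

theorem orbit {X M : Type} [Fintype X] [DecidableEq X] [AddCommMonoid M] (a : ZMod p → X → X)
    (a0 : ∀ x, a 0 x = x) (aa : ∀ s t x, a (s + t) x = a s (a t x)) (f : X → M)
    (h : ∀ x, ∑ k, f (a k x) = 0) : ∑ x, f x = ∑ x with ∀ k, a k x = x, f x := by
  classical
  have inv : ∀ s x, a (-s) (a s x) = x := fun s x => by rw [← aa, neg_add_cancel, a0]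
  rw [← sum_filter_add_sum_filter_not univ fun x => ∀ k, a k x = x,
    sum_cancels_of_partition_cancels (s := univ.filter fun x => ¬ ∀ k, a k x = x)
    ⟨fun y x => ∃ k, a k x = y, fun x => ⟨0, a0 x⟩, fun ⟨k, e⟩ => ⟨-k, e ▸ inv _ _⟩,
      fun ⟨k, e⟩ ⟨l, e'⟩ => ⟨k + l, by rw [aa, e', e]⟩⟩ fun x hx => ?_, add_zero]
  have hx := (mem_filter.1 hx).2
  rw [← h x, ← sum_image (s := univ) (g := (a · x)) fun s _ t _ e => by_contra fun c => hx fun k => ?_]
  · refine sum_congr (Finset.ext fun y => ?_) fun _ _ => rfl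
    simp only [mem_filter, mem_univ, true_and, mem_image]
    refine and_iff_right_of_imp ?_
    rintro ⟨k, rfl⟩ c
    exact hx (by rwa [(c (-k)).symm.trans (inv k x)] at c)
  · have e1 : a (s - t) x = x := by rw [sub_eq_neg_add, aa, show a s x = a t x from e, inv]
    have : ∀ n : ℕ, a (n * (s - t)) x = x := fun n => by
      induction n with
      | zero => simpa using a0 x
      | succ n ih => rw [Nat.cast_succ, add_mul, one_mul, aa, e1, ih]
    simpa [sub_ne_zero.2 c] using this (k / (s - t)).val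

theorem Dsum : ∑ τ : Perm (ZMod p)ˣ, ∏ u, ((τ u : ZMod p) - u) = 2 := by
  have w : ∏ u : (ZMod p)ˣ, (u : ZMod p) = -1 := by
    rw [← Units.coe_prod, FiniteField.prod_univ_units_id_eq_neg_one]; rfl
  have c : (Fintype.card (Perm (ZMod p)ˣ) : ZMod p) = -1 := by
    rw [Fintype.card_perm, ZMod.card_units, ZMod.wilsons_lemma]
  have p1 : p - 1 ≠ 0 := Nat.sub_ne_zero_of_lt hp.out.one_lt
  let R : Perm (ZMod p)ˣ → (ZMod p)[X] := fun τ => ∏ u, (C (τ u : ZMod p) * X + C (-u : ZMod p))
  have hR : ∀ τ, (R τ - C (-1) * X ^ (p - 1)).degree < ((p - 1 : ℕ) : WithBot ℕ) := fun τ => by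
    have d : (R τ).degree = (p - 1 : ℕ) := by
      rw [degree_prod, sum_congr rfl fun u _ => degree_linear (τ u).ne_zero]
      simp [Nat.totient_prime hp.out]
    refine d ▸ degree_sub_lt (d.trans (degree_C_mul_X_pow _ (neg_ne_zero.2 one_ne_zero)).symm)
      (ne_zero_of_degree_gt (n := ⊥) (by simp [d])) ?_
    rw [leadingCoeff_prod, prod_congr rfl fun u _ => leadingCoeff_linear (τ u).ne_zero,
      leadingCoeff_C_mul_X_pow]
    exact (Equiv.prod_comp τ fun u => (u : ZMod p)).trans w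
  have := eq_of_degrees_lt_of_eval_index_eq (univ : Finset (ZMod p)ˣ) (v := Units.val)
    (f := ∑ τ, (R τ - C (-1) * X ^ (p - 1))) (g := C (∑ τ : Perm (ZMod p)ˣ, ∏ u, ((τ u : ZMod p) - u) - 1))
    Units.val_injective.injOn (by
      rw [card_univ, ZMod.card_units]
      exact (mem_degreeLT.1 (Submodule.sum_mem _ fun τ _ => mem_degreeLT.2 (hR τ))))
    (degree_C_le.trans_lt (by rw [card_univ, ZMod.card_units]; exact_mod_cast Nat.pos_of_ne_zero p1))
    fun a _ => by
      rw [← Equiv.sum_comp (Equiv.mulLeft (Equiv.mulRight a : Perm (ZMod p)ˣ))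
        fun τ => ∏ u, ((τ u : ZMod p) - u)]
      simp [R, eval_finset_sum, eval_prod, sum_add_distrib, c, sub_eq_add_neg,
        ZMod.pow_card_sub_one_eq_one a.ne_zero]
  have h0 := congrArg (eval 0) this
  simp only [R, eval_finset_sum, eval_sub, eval_prod, eval_add, eval_mul, eval_C, eval_X, mul_zero,
    zero_add, eval_pow, zero_pow p1, sub_zero, sum_const, card_univ, nsmul_eq_mul, c] at h0
  rw [show ∏ u : (ZMod p)ˣ, (-u : ZMod p) = -1 from
    (Equiv.prod_comp (Equiv.neg _) fun u : (ZMod p)ˣ => (u : ZMod p)).trans w] at h0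
  linear_combination -h0

abbrev Q (p : ℕ) := ZMod (p ^ 2)

def π (p : ℕ) : Q p →+* ZMod p := ZMod.castHom (dvd_pow_self p two_ne_zero) _

theorem pp : (p : Q p) ^ 2 = 0 := by rw [← Nat.cast_pow, ZMod.natCast_self]

theorem ker {x : Q p} (h : π p x = 0) : (p : Q p) ∣ x := by
  obtain ⟨n, rfl⟩ := ZMod.natCast_zmod_surjective x
  rw [map_natCast, ZMod.natCast_eq_zero_iff] at h
  exact Nat.cast_dvd_cast h

theorem teich {x y : Q p} (h : π p x = π p y) : x ^ p = y ^ p := by
  have := dvd_sub_pow_of_dvd_sub (ker (by rw [map_sub, h, sub_self] : π p (x - y) = 0)) 1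
  rwa [one_add_one_eq_two, pp, zero_dvd_iff, sub_eq_zero, pow_one] at this

theorem unit {x : Q p} (h : π p x ≠ 0) : IsUnit x :=
  (isUnit_pow_iff (mul_ne_zero (Nat.sub_ne_zero_of_lt hp.out.one_lt) hp.out.ne_zero)).1 (by
    rw [pow_mul, teich (y := 1) (by rw [map_pow, ZMod.pow_card_sub_one_eq_one h, map_one]), one_pow]
    exact isUnit_one)

theorem prod1 {ι : Type} (s : Finset ι) {e : ι → Q p} (h : ∀ i, (p : Q p) ∣ e i) :
    ∏ i ∈ s, (1 + e i) = 1 + ∑ i ∈ s, e i := by
  classical
  induction s using Finset.induction_on with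
  | empty => simp
  | insert a s ha ih =>
    have := mul_dvd_mul (h a) (dvd_sum (s := s) fun i _ => h i)
    rw [← sq, pp, zero_dvd_iff] at this
    rw [prod_insert ha, sum_insert ha, ih]
    linear_combination this

def r (i : ZMod p) : Q p := (i.val : ℕ)

theorem π_r (i : ZMod p) : π p (r i) = i := by simp [r]

def w (σ : Perm (ZMod p)) : Q p := ∏ i ∈ σ.support, (r (σ i) - r i)

theorem π_w (σ : Perm (ZMod p)) : π p (w σ) = ∏ i ∈ σ.support, (σ i - i) := by simp [w, π_r]

theorem w_conj (e σ : Perm (ZMod p)) :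
    w (e * σ * e⁻¹) = ∏ i ∈ σ.support, (r (e (σ i)) - r (e i)) := by
  simp [w, Perm.support_conj]

theorem W_conj {e : Perm (ZMod p)} {a : ZMod p} (h : ∀ i j, e i - e j = a * (i - j))
    (σ : Perm (ZMod p)) : w (e * σ * e⁻¹) ^ p = (r a ^ p) ^ #σ.support * w σ ^ p := by
  rw [← pow_mul, mul_comm p, pow_mul, ← mul_pow]
  exact teich (by simp [w_conj, π_w, π_r, h, prod_mul_distrib])

theorem w_inv (σ : Perm (ZMod p)) : w σ⁻¹ = (-1) ^ #σ.support * w σ := by
  rw [w, w, Perm.support_inv, ← prod_neg]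
  exact (prod_equiv σ (by simp) (by simp)).symm

def sh (k : ZMod p) (σ : Perm (ZMod p)) : Perm (ZMod p) :=
  Equiv.addRight k * σ * (Equiv.addRight k)⁻¹

theorem W_sh (k : ZMod p) (σ : Perm (ZMod p)) : w (sh k σ) ^ p = w σ ^ p := by
  rw [sh, W_conj (a := 1) (by simp), teich (y := 1) (by simp [π_r])]; simp

theorem sum_sh (σ : Perm (ZMod p)) : ∑ k, w (sh k σ) = p * (w σ * (1 - (#σ.support : Q p))) := by
  have u : ∀ i, ∃ u : Q p, i ∈ σ.support → (r (σ i) - r i) * u = 1 := fun i => by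
    by_cases c : i ∈ σ.support
    · exact (unit (x := r (σ i) - r i) (by simpa [π_r, sub_eq_zero] using c)).exists_right_inv.imp
        fun _ h _ => h
    · exact ⟨0, fun h => (c h).elim⟩
  choose u hu using u
  have e : ∀ k, w (sh k σ) = w σ * (1 + ∑ i ∈ σ.support,
      (r (σ i + k) - r (i + k) - (r (σ i) - r i)) * u i) := fun k => by
    rw [← prod1 _ fun i => (ker (by simp [π_r])).mul_right _, sh, w_conj, w, ← prod_mul_distrib]
    exact prod_congr rfl fun i hi => by
      simp only [coe_addRight]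
      linear_combination -(r (σ i + k) - r (i + k) - (r (σ i) - r i)) * hu i hi
  have s : ∀ i : ZMod p, ∑ k, r (i + k) = ∑ k, r (p := p) k := fun i =>
    Equiv.sum_comp (Equiv.addLeft i) r
  simp only [e, ← mul_sum, sum_add_distrib]
  rw [sum_comm, sum_congr (s₁ := σ.support) rfl (g := fun _ => -(p : Q p)) fun i hi => by
    rw [← sum_mul, sum_sub_distrib, sum_sub_distrib, s, s, sum_const, card_univ, ZMod.card,
      nsmul_eq_mul]
    linear_combination -(p : Q p) * hu i hi]
  simp [ZMod.card]; ring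

theorem pmul {x y : Q p} (h : π p x = π p y) : p * x = p * y := by
  obtain ⟨c, hc⟩ := ker (by rw [map_sub, h, sub_self] : π p (x - y) = 0)
  linear_combination p * hc + c * pp (p := p)

theorem first (ho : Odd p) : ∑ σ : Perm (ZMod p), w σ =
    ∑ σ : Perm (ZMod p), w σ ^ p * (1 - (#σ.support : Q p)) := by
  rw [← sub_eq_zero, ← sum_sub_distrib, orbit sh (fun σ => by ext; simp [sh])
    (fun s t σ => by ext; simp [sh, add_assoc, add_comm s t]) _ fun σ => by
      simp only [sum_sub_distrib, sum_sh, W_sh, show ∀ k, #(sh k σ).support = #σ.support from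
        fun k => Perm.card_support_conj, sum_const, card_univ, ZMod.card, nsmul_eq_mul]
      exact sub_eq_zero.2 (pmul (by simp))]
  have h2 : IsUnit (2 : Q p) := unit (by
    rw [map_ofNat]
    exact fun c => Nat.not_even_iff_odd.2 ho (by
      rw [(Nat.prime_dvd_prime_iff_eq hp.out Nat.prime_two).1 ((ZMod.natCast_eq_zero_iff 2 p).1 c)]
      exact even_two))
  refine h2.mul_right_eq_zero.1 ?_
  rw [two_mul, add_eq_zero_iff_eq_neg, ← sum_neg_distrib]
  have i : ∀ k (σ : Perm (ZMod p)), sh k σ⁻¹ = (sh k σ)⁻¹ := fun k σ => by simp [sh, mul_assoc]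
  refine sum_equiv (Equiv.inv _) (fun σ => by simp [i]) fun σ hσ => ?_
  rw [inv_apply, w_inv, Perm.support_inv]
  by_cases c : σ = 1
  · simp [c, w]
  have : σ.support = univ := eq_univ_of_forall fun i => Perm.mem_support.2 fun e => c (by
    ext j
    have := congrArg (· j) ((mem_filter.1 hσ).2 (j - i))
    simpa [sh, e] using this.symm)
  rw [this, card_univ, ZMod.card, ho.neg_one_pow, neg_one_mul, ho.neg_pow]
  ring

theorem Tzero {m : ℕ} (h : ¬ p - 1 ∣ m) : ∑ σ : Perm (ZMod p) with #σ.support = m, w σ ^ p = 0 := by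
  obtain ⟨g, hg⟩ := IsCyclic.exists_ofOrder_eq_natCard (α := (ZMod p)ˣ)
  rw [Nat.card_eq_fintype_card, ZMod.card_units] at hg
  refine (unit (x := (r (g : ZMod p) ^ p) ^ m - 1) ?_).mul_right_eq_zero.1 ?_
  · rw [← hg, orderOf_dvd_iff_pow_eq_one] at h
    rw [map_sub, map_pow, map_pow, π_r, ZMod.pow_card, map_one, sub_ne_zero]
    exact fun c => h (Units.ext (by simpa using c))
  rw [sub_mul, one_mul, sub_eq_zero, mul_sum]
  exact sum_equiv (MulAut.conj (Equiv.mulLeft₀ (g : ZMod p) g.ne_zero)).toEquiv (fun σ => by simp)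
    fun σ hσ => ((W_conj (a := g) (by simp [mul_sub]) σ).trans (by rw [(mem_filter.1 hσ).2])).symm

theorem Tlast : ∑ σ : Perm (ZMod p) with #σ.support = p - 1, w σ ^ p = p * 2 := by
  have e1 : ∀ σ : Perm (ZMod p), #σ.support = p - 1 → ∀ x : Q p, x = ∑ j, if σ j = j then x else 0 :=
    fun σ h x => by
    have := card_filter_add_card_filter_not (s := univ) fun j => σ j = j
    rw [show univ.filter (fun j => ¬ σ j = j) = σ.support from rfl, h, card_univ, ZMod.card] at this
    rw [← sum_filter, sum_const, show #{j | σ j = j} = 1 by have := hp.out.pos; omega, one_smul]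
  rw [sum_congr rfl fun σ hσ => e1 σ (mem_filter.1 hσ).2 _, sum_comm, sum_congr rfl
    (g := fun _ => ∑ σ : Perm (ZMod p) with #σ.support = p - 1, if σ 0 = 0 then w σ ^ p else 0)
    fun j _ => (sum_equiv (MulAut.conj (Equiv.addRight j)).toEquiv (fun σ => by
      simp only [mem_filter, mem_univ, true_and]
      exact Perm.card_support_conj (σ := Equiv.addRight j) ▸ Iff.rfl) fun σ _ => by
      rw [← W_sh j]; simp [sh]).symm, sum_const, card_univ, ZMod.card, nsmul_eq_mul]
  refine pmul ?_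
  have pe : ∀ g : ZMod p → ZMod p, ∏ i ∈ univ.erase 0, g i = ∏ u : (ZMod p)ˣ, g u := fun g => by
    rw [prod_subtype (p := (· ≠ 0)) _ (by simp), ← Equiv.prod_comp unitsEquivNeZero]; rfl
  rw [map_ofNat, ← Dsum, map_sum, sum_filter, sum_congr rfl (g := fun σ : Perm (ZMod p) =>
    if σ 0 = 0 then ∏ i ∈ univ.erase 0, (σ i - i) else 0) fun σ _ => ?_, ← sum_filter,
    sum_subtype (p := fun σ : Perm (ZMod p) => ∀ a, ¬ a ≠ 0 → σ a = a) _ (by simp),
    ← Equiv.sum_comp (unitsEquivNeZero.permCongr.trans (Perm.subtypeEquivSubtypePerm _))]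
  · refine sum_congr rfl fun τ _ => (pe _).trans (prod_congr rfl fun u _ => ?_)
    rw [Equiv.trans_apply, Perm.subtypeEquivSubtypePerm_apply_of_mem (p := (· ≠ 0)) _ u.ne_zero]
    simp
  by_cases c : σ 0 = 0
  · have s : σ.support ⊆ univ.erase 0 := fun i hi => by
      simpa using fun e : i = 0 => Perm.mem_support.1 hi (e ▸ c)
    have k : #(univ.erase (0 : ZMod p)) = p - 1 := by simp [ZMod.card]
    simp only [c, if_true, map_pow, ZMod.pow_card, π_w]
    split_ifs with d
    · rw [eq_of_subset_of_card_le s (k.trans d.symm).le]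
    · obtain ⟨i, hi, e⟩ := exists_of_ssubset (s.ssubset_of_ne fun e => d (e ▸ k))
      exact (prod_eq_zero (f := fun i => σ i - i) hi (sub_eq_zero.2 (Perm.notMem_support.1 e))).symm
  · simp [c]

theorem main (ho : Odd p) : ∑ σ : Perm (ZMod p), w σ = 4 * p + 1 := by
  have h3 : 3 ≤ p := by have := hp.out.two_le; obtain ⟨k, rfl⟩ := ho; omega
  rw [first ho, ← sum_fiberwise_of_maps_to (t := range (p + 1)) (g := fun σ => #σ.support)
    fun σ _ => mem_range_succ_iff.2 ((card_le_univ _).trans_eq (ZMod.card p)),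
    sum_congr rfl (g := fun m => (∑ σ : Perm (ZMod p) with #σ.support = m, w σ ^ p) * (1 - (m : Q p)))
      fun m _ => by rw [sum_mul]; exact sum_congr rfl fun σ hσ => by rw [(mem_filter.1 hσ).2],
    sum_eq_add_of_mem 0 (p - 1) (by simp) (by simp) (by omega) fun m hm ⟨h1, h2⟩ => ?_, Tlast,
    Nat.cast_pred hp.out.pos]
  · simp only [card_eq_zero, Perm.support_eq_empty_iff, filter_eq', mem_univ, if_true, sum_singleton,
      w, Perm.support_one, prod_empty]
    linear_combination -2 * pp (p := p)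
  · rw [Tzero, zero_mul]
    rintro ⟨t, rfl⟩
    obtain ⟨n, rfl⟩ : ∃ n, p = n + 3 := ⟨p - 3, by omega⟩
    have := mem_range.1 hm
    rcases t with _ | _ | t <;> simp at *
    nlinarith

end Pool.Agent.H.MP_73edb1_nt
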